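import Pool.Agent.Q2.BP2.Conj
import Pool.Agent.Q2.BP2.Regions
import Pool.Agent.Q2.BP2.TblA
import Pool.Agent.Q2.BP2.TblB1
import Pool.Agent.Q2.BP2.TblB2
import Pool.Agent.Q2.BP2.TblC1
import Pool.Agent.Q2.BP2.TblC2
import Pool.Agent.Q2.BP2.TblC3

set_option autoImplicit false

namespace Pool.Agent.Results.MP_69fa08_nt.NoParryPowers

open Q2.BP Q2.BP2 Polynomial

lemma main {d : ℕ} (hd : 6 ≤ d) {b : ℝ} (hb : 1 < b) (hbd : b ^ (d - 1) * (b - 1) = 1) {k : ℕ}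
    (hk : 2 ≤ k) : ∃ x : ℂ, 1 < ‖x‖ ∧ x ^ d - x ^ (d - 1) - 1 = 0 ∧
      ∀ M : ℝ, ∃ n, M < ‖ww (b ^ k) (x ^ k) n‖ := by
  by_cases h : 150 ≤ d
  · exact large h hb hbd hk
  by_cases h1 : d < 40
  · have hlen : TblA.length = 34 := rfl
    exact tbl_sound TblA (by norm_num) TblA_ok hd (by omega) hb hbd hk
  by_cases h2 : d < 75
  · have hlen : TblB1.length = 35 := rfl
    exact tbl_sound TblB1 (by norm_num) TblB1_ok (by omega) (by omega) hb hbd hk
  by_cases h3 : d < 100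
  · have hlen : TblB2.length = 25 := rfl
    exact tbl_sound TblB2 (by norm_num) TblB2_ok (by omega) (by omega) hb hbd hk
  by_cases h4 : d < 118
  · have hlen : TblC1.length = 18 := rfl
    exact tbl_sound TblC1 (by norm_num) TblC1_ok (by omega) (by omega) hb hbd hk
  by_cases h5 : d < 134
  · have hlen : TblC2.length = 16 := rfl
    exact tbl_sound TblC2 (by norm_num) TblC2_ok (by omega) (by omega) hb hbd hk
  · have hlen : TblC3.length = 16 := rfl
    exact tbl_sound TblC3 (by norm_num) TblC3_ok (by omega) (by omega) hb hbd hk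

/-- For every `d ≥ 6` and `k ≥ 2`, the orbit of `1` under `x ↦ βx - ⌊βx⌋` with `β = b ^ k`,
where `b > 1` is the real root of `x ^ d - x ^ (d - 1) - 1`, is infinite: no power `b ^ k` with
`k ≥ 2` is a Parry number. -/
theorem result (d : ℕ) (hd : 6 ≤ d) (b : ℝ) (hb : 1 < b)
    (hroot : b ^ d - b ^ (d - 1) - 1 = 0) (k : ℕ) (hk : 2 ≤ k) :
    ¬ {y : ℝ | ∃ n : ℕ, 1 ≤ n ∧ y = (fun x : ℝ => b ^ k * x - ⌊b ^ k * x⌋)^[n] 1}.Finite := by
  intro hfin
  have hP : IsParry (b ^ k) := hfin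
  have hbd : b ^ (d - 1) * (b - 1) = 1 := by
    obtain ⟨e, rfl⟩ : ∃ e, d = e + 1 := ⟨d - 1, by omega⟩
    have he : e + 1 - 1 = e := by omega
    rw [he] at hroot ⊢
    rw [pow_succ] at hroot
    linarith
  obtain ⟨x, hx1, hx, hunb⟩ := main hd hb hbd hk
  obtain ⟨hirr, hx0⟩ := conj_root (by omega) hb hroot hx1 hx
  obtain ⟨M, hM⟩ := bounded_of_parry hP hirr (b := b) (k := k) rfl
    (minpoly.aeval ℚ b) (x := x) hx0
  obtain ⟨n, hn⟩ := hunb M
  exact absurd (hM n) (not_le.mpr hn)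

end Pool.Agent.Results.MP_69fa08_nt.NoParryPowers
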